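import Mathlib
import Pool.Agent.Q143.Tri.Family

/-!
# Unit-perimeter triangles: at least `n ^ (1 + ε)` of them

There is `ε > 0` with `u(n) ≥ n ^ (1 + ε)` for all large `n`, where `u(n)` is the largest number of
triangles of perimeter one spanned by `n` points of the plane; all these triangles can even be taken
congruent to one isosceles triangle.

The starting library contains infinite towers of totally real number fields `L` with bounded root
discriminant in which `2` is totally split (`Pool.Agent.TeamU`), and from them finite sets `A` of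
`4 ^ d` (here `16 ^ d`) elements of absolute value one in a CM field `K` of degree `2 d` over which
finite sets `Q(R)` with `Q(R) + A ⊆ Q(R + 1)` grow slowly.  We take the points `x + ω y` with
`x, y ∈ Q(R)` and a fixed transcendental number `ω` of absolute value one: it contains the triangles
`p, p + a, p + ω a`, `a ∈ A`, which are congruent.
-/

set_option autoImplicit false

open Finset

namespace Pool.Agent.Results.MP_75315a_co.PolynomialGain

/-- The Euclidean plane. -/
abbrev Plane : Type := EuclideanSpace ℝ (Fin 2)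

/-- `T` is the vertex set of a non-degenerate triangle of perimeter one. -/
def IsUnitTriangle (T : Finset Plane) : Prop :=
  ∃ a b c : Plane, (T : Set Plane) = {a, b, c} ∧ AffineIndependent ℝ ![a, b, c] ∧
    dist a b + dist b c + dist c a = 1

/-- The number of unit-perimeter triangles spanned by `P`. -/
noncomputable def triangles (P : Finset Plane) : ℕ :=
  Set.ncard {T : Finset Plane | T ⊆ P ∧ IsUnitTriangle T}

/-- The maximum number of unit-perimeter triangles spanned by `n` points of the plane. -/
noncomputable def u (n : ℕ) : ℕ :=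
  sSup {k : ℕ | ∃ P : Finset Plane, P.card = n ∧ triangles P = k}

/-- `T` is the vertex set of a triangle with the sides `ℓ, ℓ, t`. -/
def IsIsosceles (ℓ t : ℝ) (T : Finset Plane) : Prop :=
  ∃ a b c : Plane, (T : Set Plane) = {a, b, c} ∧ dist a b = ℓ ∧ dist a c = ℓ ∧ dist b c = t

lemma finite_sub (P : Finset Plane) (q : Finset Plane → Prop) :
    {T : Finset Plane | T ⊆ P ∧ q T}.Finite :=
  (P.powerset.finite_toSet).subset fun T hT => by
    rw [mem_coe, mem_powerset]; exact hT.1

lemma triangles_le (P : Finset Plane) : triangles P ≤ 2 ^ P.card := by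
  unfold triangles
  rw [← card_powerset, ← Set.ncard_coe_finset P.powerset]
  refine Set.ncard_le_ncard ?_ (P.powerset.finite_toSet)
  intro T hT
  rw [mem_coe, mem_powerset]; exact hT.1

lemma le_u (P : Finset Plane) : triangles P ≤ u P.card := by
  refine le_csSup ⟨2 ^ P.card, ?_⟩ ⟨P, rfl, rfl⟩
  rintro k ⟨P', h1, h2⟩
  rw [← h2, ← h1]
  exact triangles_le P'

/-- A triangle with the sides `ℓ, ℓ, t`, `0 < t < 2 ℓ`, `2 ℓ + t = 1` is a unit triangle. -/
lemma isUnit_of_isosceles {ℓ t : ℝ} (ht : 0 < t) (htl : t < 2 * ℓ)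
    (hs : 2 * ℓ + t = 1) {T : Finset Plane} (hT : IsIsosceles ℓ t T) : IsUnitTriangle T := by
  obtain ⟨a, b, c, hTe, hab, hac, hbc⟩ := hT
  refine ⟨a, b, c, hTe, ?_, ?_⟩
  · rw [affineIndependent_iff_not_collinear_set]
    intro h
    rcases h.wbtw_or_wbtw_or_wbtw with h | h | h
    · have := h.dist_add_dist
      rw [hab, hbc, hac] at this
      linarith
    · have := h.dist_add_dist
      rw [hbc, dist_comm c a, hac, dist_comm b a, hab] at this
      linarith
    · have := h.dist_add_dist
      rw [dist_comm c a, hac, hab, dist_comm c b, hbc] at this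
      linarith
  · rw [hab, hbc, dist_comm c a, hac]; linarith

/-- Every triple of `tri` gives a triangle, every triangle comes from at most `27` triples. -/
lemma tri_le (ℓ t : ℝ) (P : Finset Plane) :
    (Q143.Tri.tri ℓ t P).card ≤ 27 * Set.ncard {T : Finset Plane | T ⊆ P ∧ IsIsosceles ℓ t T} := by
  classical
  set f : Plane × Plane × Plane → Finset Plane := fun p => {p.1, p.2.1, p.2.2} with hf
  have h1 : (Q143.Tri.tri ℓ t P).card ≤ 27 * ((Q143.Tri.tri ℓ t P).image f).card := by
    refine card_le_mul_card_image _ 27 ?_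
    intro T hT
    rw [Finset.mem_image] at hT
    obtain ⟨⟨x, y, z⟩, -, rfl⟩ := hT
    have hc : (f (x, y, z)).card ≤ 3 := by
      simp only [hf]; exact card_le_three
    calc ((Q143.Tri.tri ℓ t P).filter fun p => f p = f (x, y, z)).card
        ≤ (f (x, y, z) ×ˢ f (x, y, z) ×ˢ f (x, y, z)).card := by
          refine card_le_card ?_
          rintro ⟨x', y', z'⟩ h
          rw [mem_filter] at h
          rw [mem_product, mem_product, ← h.2]
          simp [hf]
      _ ≤ 27 := by
          rw [card_product, card_product]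
          calc (f (x, y, z)).card * ((f (x, y, z)).card * (f (x, y, z)).card) ≤ 3 * (3 * 3) := by
                gcongr
            _ = 27 := by norm_num
  refine h1.trans (Nat.mul_le_mul_left _ ?_)
  rw [← Set.ncard_coe_finset]
  refine Set.ncard_le_ncard ?_ (finite_sub P _)
  intro T hT
  rw [coe_image] at hT
  obtain ⟨⟨x, y, z⟩, hx, rfl⟩ := hT
  rw [mem_coe, Q143.Tri.mem_tri] at hx
  refine ⟨?_, x, y, z, ?_, hx.2⟩
  · intro w hw
    simp only [hf, mem_insert, mem_singleton] at hw
    rcases hw with rfl | rfl | rfl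
    · exact hx.1.1
    · exact hx.1.2.1
    · exact hx.1.2.2
  · simp [hf]

/-- **Theorem.** There is `ε > 0` with `u(n) ≥ n ^ (1 + ε)` for all large `n`.  Moreover there is
one isosceles triangle of perimeter one which is congruent to at least `n ^ (1 + ε)` of the
triangles of a suitable set of `n` points, for all large `n`. -/
theorem result :
    ∃ ε : ℝ, 0 < ε ∧ ∃ n₀ : ℕ, (∀ n : ℕ, n₀ ≤ n → (n : ℝ) ^ (1 + ε) ≤ u n) ∧
      ∃ ℓ t : ℝ, 0 < ℓ ∧ 0 < t ∧ t < 2 * ℓ ∧ 2 * ℓ + t = 1 ∧
        ∀ n : ℕ, n₀ ≤ n → ∃ P : Finset Plane, P.card = n ∧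
          (n : ℝ) ^ (1 + ε) ≤ Set.ncard {T : Finset Plane | T ⊆ P ∧ IsIsosceles ℓ t T} := by
  classical
  obtain ⟨ω, hω1, hω⟩ := Q143.Tri.exists_omega
  set s : ℝ := ‖1 - ω‖ with hs
  have hs0 : 0 < s := by
    rw [hs, norm_pos_iff]
    intro h
    apply hω
    rw [← sub_eq_zero.mp h]
    exact isAlgebraic_one
  have hs2 : s < 2 := by
    have h1 : s ≤ ‖(1 : ℂ)‖ + ‖ω‖ := norm_sub_le _ _
    rw [hω1, norm_one] at h1
    refine lt_of_le_of_ne (by linarith) ?_
    intro h2
    apply hω
    have h3 : ω = -1 := by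
      have h4 : Complex.normSq (1 - ω) = 4 := by
        rw [Complex.normSq_eq_norm_sq, ← hs, h2]; norm_num
      have h5 : Complex.normSq ω = 1 := by
        rw [Complex.normSq_eq_norm_sq, hω1]; norm_num
      rw [Complex.normSq_apply] at h4 h5
      simp only [Complex.sub_re, Complex.one_re, Complex.sub_im, Complex.one_im, zero_sub] at h4
      have h6 : ω.re = -1 := by nlinarith
      have h7 : ω.im = 0 := by
        have : ω.im * ω.im = 0 := by rw [h6] at h5; linarith
        simpa using this
      exact Complex.ext (by simpa using h6) (by simpa using h7)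
    rw [h3]
    exact isAlgebraic_one.neg
  have hpos : 0 < 2 + s := by linarith
  set c : ℝ := 1 / (2 + s) with hc
  have hc0 : 0 < c := by positivity
  obtain ⟨ε, hε, n₀, h⟩ := Q143.Tri.main ω hω1 hω c hc0
  have hcs : 0 < c * s := by positivity
  have hcs2 : c * s < 2 * c := by nlinarith
  have hsum : 2 * c + c * s = 1 := by rw [hc]; field_simp
  have key : ∀ n : ℕ, n₀ ≤ n → ∃ P : Finset Plane, P.card = n ∧
      (n : ℝ) ^ (1 + ε) ≤ Set.ncard {T : Finset Plane | T ⊆ P ∧ IsIsosceles c (c * s) T} := by
    intro n hn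
    obtain ⟨P, hP, hP2⟩ := h n hn
    refine ⟨P.map Pool.Agent.TeamU.toPlane.toEquiv.toEmbedding, by rw [card_map, hP], ?_⟩
    refine hP2.trans ?_
    rw [div_le_iff₀ (by norm_num)]
    have h1 := Q143.Tri.tri_map Pool.Agent.TeamU.toPlane c (c * s) P
    have h2 := h1.trans (tri_le c (c * s) _)
    have h3 : ((Q143.Tri.tri c (c * s) P).card : ℝ) ≤
        ((27 * Set.ncard {T : Finset Plane |
          T ⊆ P.map Pool.Agent.TeamU.toPlane.toEquiv.toEmbedding ∧
            IsIsosceles c (c * s) T} : ℕ) : ℝ) := by exact_mod_cast h2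
    refine h3.trans (le_of_eq ?_)
    push_cast
    ring
  refine ⟨ε, hε, n₀, fun n hn => ?_, c, c * s, hc0, hcs, hcs2, hsum, key⟩
  obtain ⟨P, hP, hP2⟩ := key n hn
  refine hP2.trans ?_
  have h1 : Set.ncard {T : Finset Plane | T ⊆ P ∧ IsIsosceles c (c * s) T} ≤ triangles P := by
    refine Set.ncard_le_ncard ?_ (finite_sub P _)
    intro T hT
    exact ⟨hT.1, isUnit_of_isosceles hcs hcs2 hsum hT.2⟩
  have h2 := h1.trans (le_u P)
  rw [hP] at h2
  exact_mod_cast h2

end Pool.Agent.Results.MP_75315a_co.PolynomialGain
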